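import Pool.Agent.W378.GZ.GLIDE

/-!
Project GZ: almost diagonal action of finitely many operators on a vector.
-/

set_option autoImplicit false
open Filter Topology

namespace Pool.Agent.W378.GZ.C2

open Pool.Agent.W586.GZ Pool.Agent.W378.GZ.GLIDE

/-- the off diagonal part on the even coordinates -/
noncomputable def ss (t : ℕ → ℕ → ℝ) (n j : ℕ) : ℝ := by
  classical exact if Even n ∧ Even j ∧ n ≠ j then t n j else 0

lemma ss_CB {P : Par} {t : ℕ → ℕ → ℝ} {C : ℝ} (hC : CB (WX P) t C) :
    CB (WW P) (ss t) (2 * C) := by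
  classical
  have hC0 : 0 ≤ C := hC.1
  refine ⟨by positivity, ?_⟩
  intro F x c hx
  have hc : 0 ≤ c := hx.nonneg (WW_idl P)
  set xe := cut {n | Even n} x with hxe
  have h1 : NB (WW P) xe c := hx.cut (WW_idl P) _
  have h2 : NB (WX P) xe c := by
    rw [NB_WX]
    refine ⟨h1.cut (WW_idl P) _, fun n hn => ?_⟩
    have : xe n = 0 := by
      rw [hxe]; unfold cut
      exact Set.indicator_of_notMem (show n ∉ {n | Even n} from Nat.not_even_iff_odd.2 hn) x
    rw [this, abs_zero]; exact hc
  have h3 := ((NB_WX P _ _).1 (hC.2 F xe c h2)).1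
  set dd : ℕ → ℝ := fun n => if Even n ∧ n ∈ F then t n n * x n else 0 with hdd
  have h4 : NB (WW P) (fun n => (-1) * dd n) (C * c) := by
    have h5 := hx.smul C
    rw [abs_of_nonneg hC0] at h5
    refine NB.le (WW_idl P) h5 ?_
    intro n
    rw [abs_mul, abs_mul, abs_neg, abs_one, one_mul, abs_of_nonneg hC0, hdd]
    by_cases h : Even n ∧ n ∈ F
    · simp only [if_pos h]
      rw [abs_mul]
      exact mul_le_mul_of_nonneg_right (entry_bd hC n n) (abs_nonneg _)
    · simp only [if_neg h, abs_zero]
      positivity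
  have h5 := h3.add (WW_idl P) h4
  have h6 : (2 * C) * c = C * c + C * c := by ring
  rw [h6]
  refine NB.le (WW_idl P) h5 ?_
  intro n
  apply le_of_eq
  congr 1
  by_cases hn : n ∈ F
  · by_cases he : Even n
    · have e1 : cut {n | Even n} (mv t F xe) n = ∑ j ∈ F, t n j * xe j := by
        unfold cut
        rw [Set.indicator_of_mem (show n ∈ {n | Even n} from he), mv_apply_of_mem _ _ _ _ hn]
      have e2 : dd n = t n n * x n := by rw [hdd]; simp only [if_pos (show Even n ∧ n ∈ F from ⟨he, hn⟩)]
      rw [mv_apply_of_mem _ _ _ _ hn, e1, e2]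
      have e3 : ∀ j ∈ F, ss t n j * x j = t n j * xe j + if j = n then (-1) * (t n n * x n) else 0 := by
        intro j _
        by_cases hj : Even j
        · have e4 : xe j = x j := by
            rw [hxe]; unfold cut
            exact Set.indicator_of_mem (show j ∈ {n | Even n} from hj) x
          by_cases hjn : j = n
          · have e5 : ss t n j = 0 := by
              unfold ss; rw [if_neg]; rintro ⟨_, _, h⟩; exact h hjn.symm
            rw [e5, e4, if_pos hjn, hjn]; ring
          · have e5 : ss t n j = t n j := by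
              unfold ss; rw [if_pos ⟨he, hj, fun h => hjn h.symm⟩]
            rw [e5, e4, if_neg hjn]; ring
        · have e4 : xe j = 0 := by
            rw [hxe]; unfold cut
            exact Set.indicator_of_notMem (show j ∉ {n | Even n} from hj) x
          have e5 : ss t n j = 0 := by
            unfold ss; rw [if_neg]; rintro ⟨_, h, _⟩; exact hj h
          have hjn : j ≠ n := fun h => hj (h ▸ he)
          rw [e5, e4, if_neg hjn]; ring
      rw [Finset.sum_congr rfl e3, Finset.sum_add_distrib, Finset.sum_ite_eq' F n, if_pos hn]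
    · have e1 : cut {n | Even n} (mv t F xe) n = 0 := by
        unfold cut
        exact Set.indicator_of_notMem (show n ∉ {n | Even n} from he) _
      have e2 : dd n = 0 := by rw [hdd]; simp only [if_neg (show ¬ (Even n ∧ n ∈ F) from fun h => he h.1)]
      rw [mv_apply_of_mem _ _ _ _ hn, e1, e2, Finset.sum_eq_zero]
      · ring
      · intro j _
        have e5 : ss t n j = 0 := by
          unfold ss; rw [if_neg]; rintro ⟨h, _, _⟩; exact he h
        rw [e5, zero_mul]
  · have e1 : cut {n | Even n} (mv t F xe) n = 0 := by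
      unfold cut
      by_cases he : n ∈ {n | Even n}
      · rw [Set.indicator_of_mem he, mv_apply_of_notMem _ _ _ _ hn]
      · exact Set.indicator_of_notMem he _
    have e2 : dd n = 0 := by rw [hdd]; simp only [if_neg (show ¬ (Even n ∧ n ∈ F) from fun h => hn h.2)]
    rw [mv_apply_of_notMem _ _ _ _ hn, e1, e2]
    ring

lemma CB_mono {S : Set (ℕ →₀ ℚ)} (hS : Idl S) {t : ℕ → ℕ → ℝ} {C D : ℝ} (h : CB S t C)
    (hCD : C ≤ D) : CB S t D := by
  refine ⟨h.1.trans hCD, fun F x c hx => (h.2 F x c hx).mono ?_⟩
  exact mul_le_mul_of_nonneg_right hCD (hx.nonneg hS)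

/-- the vectors of the sequence -/
def xx (p : ℕ → ℕ) : ℕ → ℕ → ℝ := fun l n => if n = p l then 1 else 0

lemma xx_BS (P : Par) (p : ℕ → ℕ) (hp : StrictMono p) : BS P (xx p) where
  succ := by
    intro i l hil a b ha hb
    unfold xx at ha hb
    have h1 : a = p i := by by_contra h; exact ha (if_neg h)
    have h2 : b = p l := by by_contra h; exact hb (if_neg h)
    rw [h1, h2]; exact hp hil
  fin := by
    intro i
    refine ⟨p i + 1, fun n hn => ?_⟩
    unfold xx at hn
    have h1 : n = p i := by by_contra h; exact hn (if_neg h)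
    omega
  nb := fun i => NB_ind (WW_idl P) (p i)
  lo := by
    intro i
    refine ⟨Finsupp.single (p i) 1, (WW_idl P).un (p i), ?_⟩
    rw [ev_single]
    unfold xx
    rw [if_pos rfl]
    norm_num

theorem main : S_MATX → S_GLIDE → S_K → S_L1 → S_C2 := by
  classical
  intro hX hG hK hL P X _ _ _ e e' hM r U ε hε
  obtain ⟨hm1, hm2, _⟩ := hX (WX P) X e e' (WX_idl P) hM
  set u : ℕ → ℕ → ℕ → ℝ := fun i n j => e' n (U i (e j)) with hu
  set C : ℝ := ∑ i ∈ Finset.range r, ‖U i‖ with hC
  have hC0 : 0 ≤ C := Finset.sum_nonneg fun i _ => norm_nonneg _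
  have hCB : ∀ i, i < r → CB (WX P) (u i) C := by
    intro i hi
    exact CB_mono (WX_idl P) (hm1 (U i))
      (Finset.single_le_sum (f := fun i => ‖U i‖) (fun i _ => norm_nonneg _) (Finset.mem_range.2 hi))
  obtain ⟨p, hp, hpe, hpb⟩ := hG P r u C hCB (fun i _ j => hm2 (U i (e j)))
  have hBS := xx_BS P p hp
  -- index
  have hKi : ∀ i, i < r → ∃ N0 : ℕ, ∀ N, N0 ≤ N → ∀ (y : ℕ → ℝ) (F : Finset ℕ), Avg P N y →
      (∀ n, y n ≠ 0 → n ∈ F) → NB (WW P) (mv (ss (u i)) F y) ε := by
    intro i hi
    refine hK P (ss (u i)) (2 * C) (fun n => ?_) (ss_CB (hCB i hi)) ε hε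
    unfold ss
    rw [if_neg]
    rintro ⟨_, _, h⟩
    exact h rfl
  obtain ⟨N0, hN0⟩ := exists_common r (fun i N => ∀ (y : ℕ → ℝ) (F : Finset ℕ), Avg P N y →
      (∀ n, y n ≠ 0 → n ∈ F) → NB (WW P) (mv (ss (u i)) F y) ε) hKi
  set N : ℕ := max N0 1 with hN
  set η : ℝ := ε / (C + 3) with hη
  have hη0 : 0 < η := by positivity
  obtain ⟨a, K, ha1, ha2, hAvg, f, hf, hf1⟩ := hL P N η (by omega) hη0 (xx p) hBS
  set Y : ℕ → ℝ := fun n => ∑ k ∈ Finset.range K, a k * xx p k n with hY
  have hYodd : ∀ n, ¬ Even n → Y n = 0 := by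
    intro n hn
    rw [hY]
    apply Finset.sum_eq_zero
    intro k _
    have : xx p k n = 0 := by
      unfold xx; rw [if_neg]; intro h; exact hn (h ▸ hpe k)
    rw [this, mul_zero]
  set y : X := ∑ k ∈ Finset.range K, a k • e (p k) with hy
  have hcoord : ∀ n, e' n y = Y n := by
    intro n
    rw [hy, map_sum]
    apply Finset.sum_congr rfl
    intro k _
    rw [map_smul, hM.bio, smul_eq_mul]
    rfl
  refine ⟨y, ?_, ?_⟩
  · have h1 := (hM.nrm y ‖y‖ (norm_nonneg _)).1 le_rfl
    have h2 := ((NB_WX P _ _).1 h1).1 f hf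
    refine le_trans hf1 (le_trans (le_of_eq ?_) h2)
    apply ev_congr
    intro n _
    unfold cut
    by_cases hn : Even n
    · rw [Set.indicator_of_mem (show n ∈ {n | Even n} from hn), hcoord]
    · rw [Set.indicator_of_notMem (show n ∉ {n | Even n} from hn)]
      rw [hYodd n hn]
  · intro i hi D hD
    rw [hM.nrm _ ε hε.le, NB_WX]
    have hUy : ∀ n, e' n (U i y) = ∑ k ∈ Finset.range K, a k * u i n (p k) := by
      intro n
      rw [hy, map_sum, map_sum]
      apply Finset.sum_congr rfl
      intro k _
      rw [map_smul, map_smul, smul_eq_mul]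
    have hDy : ∀ n, e' n (D y) = u i n n * Y n := by
      intro n
      rw [hy, map_sum, map_sum, hY, Finset.mul_sum]
      apply Finset.sum_congr rfl
      intro k _
      rw [map_smul, map_smul, smul_eq_mul, hD, map_smul, smul_eq_mul, hM.bio]
      unfold xx
      by_cases h : n = p k
      · rw [if_pos h, ← h]; ring
      · rw [if_neg h]; ring
    have hco : ∀ n, e' n (U i y - D y) =
        (∑ k ∈ Finset.range K, a k * u i n (p k)) - u i n n * Y n := by
      intro n; rw [map_sub, hUy, hDy]
    have habs : ∀ l, |a l| ≤ η := fun l => by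
      rw [abs_of_nonneg (ha2 l).1]; exact (ha2 l).2
    have hεη : η * (C + 2) ≤ ε := by
      rw [hη, div_mul_eq_mul_div, div_le_iff₀ (by positivity)]
      nlinarith
    constructor
    · intro f hf
      set F : Finset ℕ := f.support ∪ (Finset.range K).image p with hF
      have hYF : ∀ n, Y n ≠ 0 → n ∈ F := by
        intro n hn
        rw [hF, Finset.mem_union]
        right
        rw [hY] at hn
        obtain ⟨k, hk, hne⟩ := Finset.exists_ne_zero_of_sum_ne_zero hn
        rw [Finset.mem_image]
        refine ⟨k, hk, ?_⟩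
        by_contra h
        apply hne
        unfold xx
        rw [if_neg (fun h' => h h'.symm), mul_zero]
      have h1 := hN0 N (le_max_left _ _) i hi Y F hAvg hYF f hf
      refine le_trans (ev_mono f ((WW_idl P).nn f hf) _ _ ?_) h1
      intro n hn
      unfold cut
      by_cases he : Even n
      · rw [Set.indicator_of_mem (show n ∈ {n | Even n} from he)]
        have hnF : n ∈ F := by
          rw [hF, Finset.mem_union]; exact Or.inl (Finsupp.mem_support_iff.2 hn)
        apply le_of_eq
        congr 1
        rw [hco, mv_apply_of_mem _ _ _ _ hnF]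
        have e1 : ∑ j ∈ F, ss (u i) n j * Y j = ∑ k ∈ Finset.range K, a k * ss (u i) n (p k) := by
          simp only [hY, Finset.mul_sum]
          rw [Finset.sum_comm]
          apply Finset.sum_congr rfl
          intro k hk
          rw [Finset.sum_eq_single (p k)]
          · unfold xx; rw [if_pos rfl]; ring
          · intro j _ hj
            unfold xx; rw [if_neg hj]; ring
          · intro h
            exfalso; apply h
            rw [hF, Finset.mem_union]
            exact Or.inr (Finset.mem_image_of_mem p hk)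
        rw [e1, hY, Finset.mul_sum, ← Finset.sum_sub_distrib]
        apply Finset.sum_congr rfl
        intro k _
        unfold xx
        by_cases h : n = p k
        · have e2 : ss (u i) n (p k) = 0 := by
            unfold ss; rw [if_neg]; rintro ⟨_, _, h'⟩; exact h' h
          rw [if_pos h, e2, ← h]; ring
        · have e2 : ss (u i) n (p k) = u i n (p k) := by
            unfold ss; rw [if_pos ⟨he, hpe k, h⟩]
          rw [if_neg h, e2]; ring
      · rw [Set.indicator_of_notMem (show n ∉ {n | Even n} from he), abs_zero]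
        exact abs_nonneg _
    · intro n hn
      rw [hco, hYodd n (Nat.not_even_iff_odd.2 hn), mul_zero, sub_zero]
      exact (hpb a K η habs i hi n).trans hεη

end Pool.Agent.W378.GZ.C2
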