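import Pool.Agent.W586.GZ.Stm

/-!
Project GZ: gliding hump for the `c_0` part.
-/

set_option autoImplicit false
open Filter Topology

namespace Pool.Agent.W378.GZ.GLIDE

open Pool.Agent.W586.GZ

lemma row_bd {P : Par} {t : ℕ → ℕ → ℝ} {C : ℝ} (hC : CB (WX P) t C) (n : ℕ) (s : Finset ℕ)
    (x : ℕ → ℝ) (hx : ∀ k, x k ≠ 0 → k ∈ s) (h1 : NB (WX P) x 1) :
    |∑ k ∈ s, t n k * x k| ≤ C := by
  classical
  have h2 := (hC.2 (insert n s) x 1 h1).coord (WX_idl P) n
  rw [mv_apply_of_mem _ _ _ _ (Finset.mem_insert_self n s), mul_one] at h2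
  have h3 : ∑ j ∈ insert n s, t n j * x j = ∑ j ∈ s, t n j * x j := by
    symm
    apply Finset.sum_subset (Finset.subset_insert n s)
    intro k _ hk
    have : x k = 0 := by by_contra h; exact hk (hx k h)
    rw [this, mul_zero]
  rwa [h3] at h2

lemma NB_ind {S : Set (ℕ →₀ ℚ)} (hS : Idl S) (j : ℕ) :
    NB S (fun k => if k = j then (1 : ℝ) else 0) 1 := by
  have h := NB.of_l1 hS (x := fun k => if k = j then (1 : ℝ) else 0) {j} (by
    intro i hi
    by_contra h
    apply hi
    rw [Finset.mem_singleton] at h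
    simp [h])
  simpa using h

lemma entry_bd {P : Par} {t : ℕ → ℕ → ℝ} {C : ℝ} (hC : CB (WX P) t C) (n j : ℕ) :
    |t n j| ≤ C := by
  have h := row_bd hC n {j} (fun k => if k = j then (1 : ℝ) else 0) (by
    intro k hk
    by_contra h
    apply hk
    rw [Finset.mem_singleton] at h
    simp [h]) (NB_ind (WX_idl P) j)
  simpa using h

lemma row_zero (hS : S_SHRW) {P : Par} {t : ℕ → ℕ → ℝ} {C : ℝ} (hC : CB (WX P) t C) (n : ℕ)
    (θ : ℝ) (hθ : 0 < θ) : ∃ M : ℕ, ∀ j, M ≤ j → |t n j| ≤ θ := by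
  obtain ⟨M, hM⟩ := hS P (fun j => t n j) C (fun s x hx h1 => row_bd hC n s x hx h1) θ hθ
  refine ⟨M, fun j hj => ?_⟩
  have h := hM {j} (fun k => if k = j then (1 : ℝ) else 0) (by
    intro k hk
    by_contra h
    apply hk
    rw [Finset.mem_singleton] at h
    simp [h]) (by intro k hk; rw [Finset.mem_singleton] at hk; omega) (NB_ind (WX_idl P) j)
  simpa using h

lemma geo (K : ℕ) : ∑ l ∈ Finset.range K, (1 / 2 : ℝ) ^ (l + 1) = 1 - (1 / 2 : ℝ) ^ K := by
  induction K with
  | zero => simp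
  | succ K ih => rw [Finset.sum_range_succ, ih]; ring

/-- finitely many eventual bounds at once -/
lemma exists_common (r : ℕ) (Q : ℕ → ℕ → Prop) (h : ∀ i, i < r → ∃ M, ∀ j, M ≤ j → Q i j) :
    ∃ M, ∀ j, M ≤ j → ∀ i, i < r → Q i j := by
  induction r with
  | zero => exact ⟨0, fun j _ i hi => absurd hi (Nat.not_lt_zero i)⟩
  | succ r ih =>
    obtain ⟨M1, h1⟩ := ih (fun i hi => h i (by omega))
    obtain ⟨M2, h2⟩ := h r (by omega)
    refine ⟨max M1 M2, fun j hj i hi => ?_⟩
    rcases Nat.lt_succ_iff_lt_or_eq.1 hi with h3 | h3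
    · exact h1 j (by omega) i h3
    · rw [h3]; exact h2 j (by omega)

theorem main : S_SHRW → S_GLIDE := by
  classical
  intro hS P r u C hC hcol
  -- one step
  have step : ∀ l pp R : ℕ, ∃ p R' : ℕ, Even p ∧ pp < p ∧ R < R' ∧
      (∀ i, i < r → ∀ n, n < R → |u i n p| ≤ (1 / 2 : ℝ) ^ (l + 1)) ∧
      (∀ i, i < r → ∀ n, R' ≤ n → |u i n p| ≤ (1 / 2 : ℝ) ^ (l + 1)) := by
    intro l pp R
    have hpos : (0 : ℝ) < (1 / 2 : ℝ) ^ (l + 1) := by positivity
    obtain ⟨M, hM⟩ := exists_common r (fun i j => ∀ n, n < R → |u i n j| ≤ (1 / 2 : ℝ) ^ (l + 1)) (by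
      intro i hi
      obtain ⟨M, hM⟩ := exists_common R (fun n j => |u i n j| ≤ (1 / 2 : ℝ) ^ (l + 1)) (by
        intro n _
        exact row_zero hS (hC i hi) n _ hpos)
      exact ⟨M, fun j hj n hn => hM j hj n hn⟩)
    set p : ℕ := 2 * (max M (pp + 1)) with hp
    obtain ⟨R1, hR1⟩ := exists_common r (fun i n => |u i n p| ≤ (1 / 2 : ℝ) ^ (l + 1)) (by
      intro i hi
      have h := (Metric.tendsto_atTop.1 (hcol i hi p)) _ hpos
      obtain ⟨N, hN⟩ := h
      refine ⟨N, fun n hn => ?_⟩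
      have := hN n hn
      rw [Real.dist_eq, sub_zero] at this
      exact this.le)
    refine ⟨p, max R1 (R + 1), ⟨max M (pp + 1), by omega⟩, by omega, by omega, ?_, ?_⟩
    · intro i hi n hn
      exact hM p (by omega) i hi n hn
    · intro i hi n hn
      exact hR1 n (by omega) i hi
  choose pf Rf hpf1 hpf2 hpf3 hpf4 hpf5 using step
  let st : ℕ → ℕ × ℕ := fun l => Nat.rec ((0, 0) : ℕ × ℕ)
    (fun l s => (pf l s.1 s.2, Rf l s.1 s.2)) l
  have st0 : st 0 = (0, 0) := rfl
  have stS : ∀ l, st (l + 1) = (pf l (st l).1 (st l).2, Rf l (st l).1 (st l).2) := fun l => rfl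
  have hRmono : StrictMono fun l => (st l).2 := by
    apply strictMono_nat_of_lt_succ
    intro l
    show (st l).2 < (st (l + 1)).2
    rw [stS]
    exact hpf3 _ _ _
  refine ⟨fun l => (st (l + 1)).1, ?_, ?_, ?_⟩
  · apply strictMono_nat_of_lt_succ
    intro l
    show (st (l + 1)).1 < (st (l + 1 + 1)).1
    rw [stS (l + 1)]
    exact hpf2 _ _ _
  · intro l
    show Even (st (l + 1)).1
    rw [stS]
    exact hpf1 _ _ _
  · intro a K η ha i hi n
    have hη : 0 ≤ η := (abs_nonneg _).trans (ha 0)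
    have hC0 : 0 ≤ C := (hC i hi).1
    -- the interval of n
    obtain ⟨m, hm1, hm2⟩ : ∃ m, (st m).2 ≤ n ∧ n < (st (m + 1)).2 := by
      have hex : ∃ m, n < (st m).2 := ⟨n + 1, lt_of_lt_of_le (Nat.lt_succ_self n) (hRmono.le_apply)⟩
      have h0 : Nat.find hex ≠ 0 := by
        intro h
        have := Nat.find_spec hex
        rw [h, st0] at this
        exact absurd this (Nat.not_lt_zero n)
      obtain ⟨m, hm⟩ := Nat.exists_eq_succ_of_ne_zero h0
      refine ⟨m, ?_, ?_⟩
      · have := Nat.find_min hex (m := m) (by omega)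
        omega
      · have := Nat.find_spec hex
        rw [hm] at this
        exact this
    have hb : ∀ l, |u i n (st (l + 1)).1| ≤ (1 / 2 : ℝ) ^ (l + 1) + if l = m then C else 0 := by
      intro l
      rcases lt_trichotomy l m with h | h | h
      · rw [if_neg (by omega), add_zero, stS]
        apply hpf5 _ _ _ i hi
        have h1 : (st (l + 1)).2 ≤ (st m).2 := hRmono.monotone (show l + 1 ≤ m by omega)
        rw [stS] at h1
        exact h1.trans hm1
      · rw [if_pos h]
        have h1 := entry_bd (hC i hi) n (st (l + 1)).1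
        have h2 : (0 : ℝ) ≤ (1 / 2 : ℝ) ^ (l + 1) := by positivity
        linarith
      · rw [if_neg (by omega), add_zero, stS]
        apply hpf4 _ _ _ i hi
        have h1 : (st (m + 1)).2 ≤ (st l).2 := hRmono.monotone (show m + 1 ≤ l by omega)
        omega
    calc |∑ l ∈ Finset.range K, a l * u i n (st (l + 1)).1|
        ≤ ∑ l ∈ Finset.range K, |a l * u i n (st (l + 1)).1| := Finset.abs_sum_le_sum_abs _ _
      _ ≤ ∑ l ∈ Finset.range K, η * ((1 / 2 : ℝ) ^ (l + 1) + if l = m then C else 0) := by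
          apply Finset.sum_le_sum
          intro l _
          rw [abs_mul]
          exact mul_le_mul (ha l) (hb l) (abs_nonneg _) hη
      _ = η * (∑ l ∈ Finset.range K, (1 / 2 : ℝ) ^ (l + 1) +
            ∑ l ∈ Finset.range K, if l = m then C else 0) := by
          rw [← Finset.mul_sum, Finset.sum_add_distrib]
      _ ≤ η * (C + 2) := by
          apply mul_le_mul_of_nonneg_left _ hη
          have h1 : ∑ l ∈ Finset.range K, (if l = m then C else 0) ≤ C := by
            rw [Finset.sum_ite_eq' (Finset.range K) m (fun _ => C)]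
            split_ifs
            · exact le_refl _
            · exact hC0
          have h2 : (0 : ℝ) ≤ (1 / 2 : ℝ) ^ K := by positivity
          rw [geo]
          linarith

end Pool.Agent.W378.GZ.GLIDE
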